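import Pool.Agent.J4.H44.LP.Mb2

set_option autoImplicit false

/-!
# The sixth moment and the middle block of Dirichlet polynomials
-/

namespace Pool.Agent.Results.MP_39df77_nt.MiddleBlock

open Complex MeasureTheory Filter Topology Set Pool.Agent.TH535.SM Pool.Agent.R446.KR Pool.Agent.J4.H44.LP
open scoped ContDiff

/-- The moment `M_k(T)`. -/
noncomputable def Mk (k : ℕ) (T : ℝ) : ℝ := 1 / T * ∫ t in (0:ℝ)..T, ‖riemannZeta (1 / 2 + I * t)‖ ^ (2 * k)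

/-- The arithmetic constant `a_k`. -/
noncomputable def a (k : ℕ) : ℝ := ∏' p : Nat.Primes, (1 - 1 / (p : ℝ)) ^ (k ^ 2) *
  ∑' m : ℕ, ((m + k - 1).choose m : ℝ) ^ 2 / (p : ℝ) ^ m

/-- The number `d_k(n)` of ordered factorisations of `n` into `k` positive factors. -/
def d (k n : ℕ) : ℕ := (Nat.finMulAntidiag k n).card

/-- The smoothed Dirichlet polynomial `∑_n d_k(n) φ(log n / log T) n^{-1/2-it}` (a finite sum over
`T^a < n < T^b` if `φ` vanishes off `(a,b)`). -/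
noncomputable def D (k : ℕ) (φ : ℝ → ℂ) (T t : ℝ) : ℂ :=
  ∑' n : ℕ, (d k n : ℂ) * φ (Real.log n / Real.log T) * (n : ℂ) ^ (-(1 / 2 + I * t))

/-- Its mean square `(1/T) ∫ |D|² dt` over `T^ϑ ≤ t ≤ T`. -/
noncomputable def S (k : ℕ) (φ : ℝ → ℂ) (ϑ T : ℝ) : ℝ := 1 / T * ∫ t in (T ^ ϑ)..T, ‖D k φ T t‖ ^ 2

/-- Cut-offs which are complementary on the middle block `[1-δ, k-1+δ]`. -/
structure Block (k : ℕ) (δ : ℝ) (φ ψ : ℝ → ℂ) : Prop where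
  smooth₁ : ContDiff ℝ ∞ φ
  smooth₂ : ContDiff ℝ ∞ ψ
  compact₁ : HasCompactSupport φ
  compact₂ : HasCompactSupport ψ
  compl : ∀ v : ℝ, 1 - δ ≤ v → v ≤ k - 1 + δ → ‖φ v‖ ^ 2 + ‖ψ (k - v)‖ ^ 2 = 1

/-- The contribution of the edges `[0,1]` and `[k-1,k]`. -/
noncomputable def edge (k : ℕ) (φ ψ : ℝ → ℂ) : ℝ :=
  ∫ v in (0:ℝ)..1, (2 - ‖φ v‖ ^ 2 - ‖ψ (k - v)‖ ^ 2 - ‖φ (k - v)‖ ^ 2 - ‖ψ v‖ ^ 2) *
    (v ^ (k ^ 2 - 1) / (k ^ 2 - 1).factorial)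

lemma Mk_eq (k : ℕ) (T : ℝ) : Mk k T = M (zk k) T / T := by
  unfold Mk M
  have e : ∫ t in (0:ℝ)..T, ‖riemannZeta (1 / 2 + I * t)‖ ^ (2 * k) = ∫ t in (0:ℝ)..T, ‖zk k t‖ ^ 2 := by
    refine intervalIntegral.integral_congr fun t _ => ?_
    unfold zk ze
    rw [norm_pow, ← pow_mul, mul_comm k 2, mul_comm I]
  rw [e, one_div_mul_eq_div]

lemma S_eq (k : ℕ) (φ : ℝ → ℂ) (ϑ T : ℝ) : S k φ ϑ T = PD k φ ϑ T / T := by
  unfold S
  rw [one_div_mul_eq_div]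
  rfl

lemma rat1 (k : ℕ) (T : ℝ) : Mk k T / Real.log T ^ (k ^ 2) = M (zk k) T / NN (k ^ 2) T := by
  rw [Mk_eq, div_div]; rfl

lemma rat2 (k : ℕ) (φ ψ : ℝ → ℂ) (ϑ T : ℝ) : (S k φ ϑ T + S k ψ ϑ T) / Real.log T ^ (k ^ 2) =
    (PD k φ ϑ T + PD k ψ ϑ T) / NN (k ^ 2) T := by
  rw [S_eq, S_eq, ← add_div, div_div]; rfl

lemma bd_iff {f g : ℝ → ℝ} (q : ℕ) (h : ∀ᶠ T : ℝ in atTop, g T = f T / T) :
    (∃ C : ℝ, ∀ᶠ T : ℝ in atTop, g T ≤ C * Real.log T ^ q) ↔ ∃ C : ℝ, ∀ᶠ T : ℝ in atTop, f T ≤ C * NN q T := by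
  have e : ∀ C T : ℝ, 0 < T → (f T / T ≤ C * Real.log T ^ q ↔ f T ≤ C * NN q T) := by
    intro C T hT
    rw [div_le_iff₀ hT]
    unfold NN
    have : C * Real.log T ^ q * T = C * (T * Real.log T ^ q) := by ring
    rw [this]
  constructor
  · rintro ⟨C, hC⟩
    refine ⟨C, ?_⟩
    filter_upwards [hC, h, eventually_gt_atTop 0] with T h1 h2 h3
    rw [h2] at h1
    exact (e C T h3).1 h1
  · rintro ⟨C, hC⟩
    refine ⟨C, ?_⟩
    filter_upwards [hC, h, eventually_gt_atTop 0] with T h1 h2 h3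
    rw [h2]
    exact (e C T h3).2 h1

theorem result :
    -- cut-offs of the middle block exist, the first one living on `(1-2δ, θ+δ)`
    (∀ (k : ℕ) (θ δ : ℝ), 0 < δ → δ ≤ 1 → ∃ φ ψ : ℝ → ℂ, Block k δ φ ψ ∧ (∀ v, ‖φ v‖ ≤ 1 ∧ ‖ψ v‖ ≤ 1) ∧
      (∀ v, v ≤ 1 - 2 * δ → φ v = 0 ∧ ψ v = 0) ∧ (∀ v, θ + δ ≤ v → φ v = 0) ∧
      (∀ v, (k : ℝ) - θ + δ ≤ v → ψ v = 0) ∧ (2 * θ = k → φ = ψ)) ∧
    -- the equivalences for general `k`
    (∀ (k : ℕ) (δ : ℝ) (φ ψ : ℝ → ℂ), 2 ≤ k → 0 < δ → Block k δ φ ψ → ∀ ϑ : ℝ, 0 < ϑ → ϑ < 1 →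
      (∀ c : ℝ, Tendsto (fun T => Mk k T / Real.log T ^ (k ^ 2)) atTop (𝓝 c) ↔
        Tendsto (fun T => (S k φ ϑ T + S k ψ ϑ T) / Real.log T ^ (k ^ 2)) atTop (𝓝 (c - a k * edge k φ ψ))) ∧
      ((∃ C : ℝ, ∀ᶠ T : ℝ in atTop, Mk k T ≤ C * Real.log T ^ (k ^ 2)) ↔
        ∃ C : ℝ, ∀ᶠ T : ℝ in atTop, S k φ ϑ T + S k ψ ϑ T ≤ C * Real.log T ^ (k ^ 2))) ∧
    -- the sixth moment and one polynomial
    (∀ (δ : ℝ) (φ : ℝ → ℂ), 0 < δ → Block 3 δ φ φ → (∀ v, 2 ≤ v → φ v = 0) → ∀ ϑ : ℝ, 0 < ϑ → ϑ < 1 →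
      (Tendsto (fun T : ℝ => Mk 3 T / (42 * a 3 / Nat.factorial 9 * Real.log T ^ 9)) atTop (𝓝 1) ↔
        Tendsto (fun T : ℝ => S 3 φ ϑ T / Real.log T ^ 9) atTop
          (𝓝 (a 3 * (20 / Nat.factorial 9 + ∫ v in (0:ℝ)..1, ‖φ v‖ ^ 2 * v ^ 8 / Nat.factorial 8))))) := by
  refine ⟨fun k θ δ hδ hδ1 => ?_, fun k δ φ ψ hk hδ h ϑ hϑ0 hϑ => ?_, fun δ φ hδ h hz ϑ hϑ0 hϑ => ?_⟩
  · refine ⟨fun v => (blk θ δ v : ℂ), fun v => (blk (k - θ) δ v : ℂ),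
      ⟨blk_smooth _ _, blk_smooth _ _, blk_cs hδ, blk_cs hδ, fun v h0 h1 => ?_⟩, fun v => ⟨?_, ?_⟩,
      fun v hv => ⟨?_, ?_⟩, fun v hv => ?_, fun v hv => ?_, fun h2 => ?_⟩
    · simp only [Complex.norm_real, Real.norm_eq_abs, sq_abs]
      exact blk_compl hδ hδ1 h0 h1
    · simp only [Complex.norm_real, Real.norm_eq_abs]
      exact blk_abs _ _ _
    · simp only [Complex.norm_real, Real.norm_eq_abs]
      exact blk_abs _ _ _
    · simp only [blk_left hδ hv, Complex.ofReal_zero]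
    · simp only [blk_left hδ hv, Complex.ofReal_zero]
    · simp only [blk_right hδ hv, Complex.ofReal_zero]
    · simp only [blk_right hδ hv, Complex.ofReal_zero]
    · have e : (k : ℝ) - θ = θ := by linarith
      rw [e]
  · obtain ⟨ξ1, hξ1, h1⟩ := mk_TF h.smooth₁ h.compact₁
    obtain ⟨ξ2, hξ2, h2⟩ := mk_TF h.smooth₂ h.compact₂
    have ea : a k = H306R2.aF k := aF_choose k (by omega)
    have ee : edge k φ ψ = (edg k (fun v => (ge k φ ψ v : ℂ))).re := (edg_ge hk h1.cont h2.cont).symm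
    refine ⟨fun c => ?_, ?_⟩
    · simp only [rat1, rat2]
      rw [ea, ee]
      exact mid_iff hk h1 hξ1 h2 hξ2 hδ h.compl hϑ0 hϑ c
    · rw [bd_iff (f := M (zk k)) (g := Mk k) (k ^ 2) (Eventually.of_forall fun T => Mk_eq k T),
        bd_iff (f := fun T => PD k φ ϑ T + PD k ψ ϑ T) (g := fun T => S k φ ϑ T + S k ψ ϑ T) (k ^ 2)
          (Eventually.of_forall fun T => by rw [S_eq, S_eq, ← add_div])]
      exact mid_O hk h1 hξ1 h2 hξ2 hδ h.compl hϑ0 hϑ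
  · obtain ⟨ξ1, hξ1, h1⟩ := mk_TF h.smooth₁ h.compact₁
    have ea : a 3 = H306R2.aF (3:ℕ) := aF_choose 3 (by omega)
    have h3 : ((3:ℕ):ℝ) = 3 := by norm_num
    have hpos : 0 < a 3 := by rw [ea]; exact H306R2.aF_pos (by norm_num)
    have ee : edge 3 φ φ = 2 * (1 / Nat.factorial 9 - ∫ v in (0:ℝ)..1, ‖φ v‖ ^ 2 * v ^ 8 / Nat.factorial 8) := by
      unfold edge
      have c1 : Continuous fun v : ℝ => v ^ 8 / (Nat.factorial 8 : ℝ) := by fun_prop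
      have c2 : Continuous fun v : ℝ => ‖φ v‖ ^ 2 * v ^ 8 / (Nat.factorial 8 : ℝ) := by
        have := h1.cont
        fun_prop
      have e1 : ∫ v in (0:ℝ)..1, v ^ 8 / (Nat.factorial 8 : ℝ) = 1 / Nat.factorial 9 := by
        rw [intervalIntegral.integral_div, integral_pow]
        norm_num [Nat.factorial]
      rw [← e1, ← intervalIntegral.integral_sub (c1.intervalIntegrable _ _) (c2.intervalIntegrable _ _),
        ← intervalIntegral.integral_const_mul]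
      refine intervalIntegral.integral_congr fun v hv => ?_
      rw [uIcc_of_le zero_le_one] at hv
      have e2 : φ ((3:ℕ) - v) = 0 := hz _ (by rw [h3]; linarith [hv.2])
      rw [e2]
      norm_num
      ring
    have key := mid_iff (k := 3) (by norm_num) h1 hξ1 h1 hξ1 hδ h.compl hϑ0 hϑ (42 * a 3 / Nat.factorial 9)
    rw [edg_ge (k := 3) (by norm_num) h1.cont h1.cont, ← ea] at key
    have ee' : ed 3 φ φ = edge 3 φ φ := rfl
    rw [ee', ee] at key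
    have hκ : 0 < 42 * a 3 / Nat.factorial 9 := by positivity
    have e3 : Tendsto (fun T : ℝ => Mk 3 T / (42 * a 3 / Nat.factorial 9 * Real.log T ^ 9)) atTop (𝓝 1) ↔
        Tendsto (fun T => M (zk 3) T / NN (3 ^ 2) T) atTop (𝓝 (42 * a 3 / Nat.factorial 9)) := by
      obtain ⟨κ, hκd⟩ : ∃ κ, κ = 42 * a 3 / Nat.factorial 9 := ⟨_, rfl⟩
      rw [← hκd] at hκ ⊢
      have e4 : (fun T : ℝ => Mk 3 T / (κ * Real.log T ^ 9)) =
          fun T : ℝ => (M (zk 3) T / NN (3 ^ 2) T) * κ⁻¹ := by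
        funext T
        rw [← rat1, mul_comm κ, ← div_div, div_eq_mul_inv]
        norm_num
      rw [e4]
      constructor
      · intro hf
        have := hf.mul_const κ
        simpa [mul_assoc, inv_mul_cancel₀ hκ.ne'] using this
      · intro hf
        have := hf.mul_const κ⁻¹
        rwa [mul_inv_cancel₀ hκ.ne'] at this
    have e5 : Tendsto (fun T : ℝ => S 3 φ ϑ T / Real.log T ^ 9) atTop
          (𝓝 (a 3 * (20 / Nat.factorial 9 + ∫ v in (0:ℝ)..1, ‖φ v‖ ^ 2 * v ^ 8 / Nat.factorial 8))) ↔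
        Tendsto (fun T => (PD 3 φ ϑ T + PD 3 φ ϑ T) / NN (3 ^ 2) T) atTop
          (𝓝 (42 * a 3 / Nat.factorial 9 - a 3 * (2 * (1 / Nat.factorial 9 -
            ∫ v in (0:ℝ)..1, ‖φ v‖ ^ 2 * v ^ 8 / Nat.factorial 8)))) := by
      obtain ⟨x, hx⟩ : ∃ x, x = a 3 * (20 / Nat.factorial 9 +
        ∫ v in (0:ℝ)..1, ‖φ v‖ ^ 2 * v ^ 8 / Nat.factorial 8) := ⟨_, rfl⟩
      have e6 : 42 * a 3 / Nat.factorial 9 - a 3 * (2 * (1 / Nat.factorial 9 -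
            ∫ v in (0:ℝ)..1, ‖φ v‖ ^ 2 * v ^ 8 / Nat.factorial 8)) = 2 * x := by
        rw [hx]; ring
      rw [e6, ← hx]
      have e7 : (fun T : ℝ => (PD 3 φ ϑ T + PD 3 φ ϑ T) / NN (3 ^ 2) T) =
          fun T : ℝ => 2 * (S 3 φ ϑ T / Real.log T ^ 9) := by
        funext T
        have := rat2 3 φ φ ϑ T
        rw [← this]
        norm_num
        ring
      rw [e7]
      constructor
      · intro hf
        exact hf.const_mul 2
      · intro hf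
        have := hf.const_mul (1 / 2 : ℝ)
        simpa using this
    rw [e3, key, e5]

end Pool.Agent.Results.MP_39df77_nt.MiddleBlock
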