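import Pool.Agent.J4.H39.HM.Lead

/-!
# MP_39df77_nt: the product `|ζ(1/2 + it₁)|² |ζ(1/2 + it₂)|² |ζ(1/2 + it₃)|²` on rational planes

Let `a₀, a₁, a₂` be coprime nonzero integers and `v₀, v₁, v₂` positive reals with `a₀ v₀ + a₁ v₁ + a₂ v₂ = 0`.
The points of the plane `a₀ t₀ + a₁ t₁ + a₂ t₂ = 0` of `ℝ³` near the ray of direction `v` are

  `t₀ = v₀ t`, `t₁ = v₁ t + h`, `t₂ = v₂ t - (a₁/a₂) h`.

The integral of the product of the three values of `|ζ|²` over them, `T₁ ≤ t ≤ T₂` and `|h| ≤ H`, is evaluated with the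
full main term and a power saving, uniformly for `T ≤ T₁ ≤ T₂ ≤ 2T` and `T^(1/2+κ) ≤ H ≤ T^(1-κ)`.
The leading coefficient of the main term is `ζ(s)²/ζ(2s)`, `s = (|a₀| + |a₁| + |a₂|)/2`.

Example: `a = (-2, 1, 1)`, `v = (1, 1, 1)` is the mean over the arithmetic progressions `t - h, t, t + h`, with `s = 2` and
`ζ(2)²/ζ(4) = 5/2`.
-/

set_option autoImplicit false

namespace Pool.Agent.Results.MP_39df77_nt.MomentsOnPlanes

open MeasureTheory Set Topology Filter Complex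

/-- `|ζ(1/2 + it)|²` -/
noncomputable def Z (t : ℝ) : ℝ := ‖riemannZeta (1 / 2 + I * t)‖ ^ 2

/-- `s = (|a₀| + |a₁| + |a₂|)/2` -/
noncomputable def s (a : Fin 3 → ℤ) : ℝ := (∑ i, |(a i : ℝ)|) / 2

/-- the main term: the sum over the coprime pairs of positive integers `(p, q)` of
`(pq)^(-s) ∏ (log(vᵢ t/2π) + 2γ - |aᵢ| log(pq))` -/
noncomputable def P (a : Fin 3 → ℤ) (v : Fin 3 → ℝ) (t : ℝ) : ℝ :=
  ∑' p : ℕ × ℕ, if 0 < p.1 ∧ 0 < p.2 ∧ Nat.Coprime p.1 p.2 then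
    ((p.1 : ℝ) * p.2) ^ (-(s a)) * ∏ i, (Real.log (v i * t / (2 * Real.pi)) + 2 * Real.eulerMascheroniConstant -
      |(a i : ℝ)| * Real.log ((p.1 : ℝ) * p.2)) else 0

/-- the integral of the product of the three values of `|ζ|²` over the plane -/
noncomputable def J (a : Fin 3 → ℤ) (v : Fin 3 → ℝ) (T₁ T₂ H : ℝ) : ℝ :=
  ∫ t in T₁..T₂, ∫ h in (-H)..H, Z (v 0 * t) * Z (v 1 * t + h) * Z (v 2 * t - a 1 * h / a 2)

open Pool.Agent.J4.H39.HM in
lemma s_eq (a : Fin 3 → ℤ) : s a = sx (m := 2) ![a 2, a 0, a 1] := by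
  unfold s sx
  have e : ∀ f : Fin (2 + 1) → ℝ, ∑ i, f i = f 0 + f 1 + f 2 := fun f => Fin.sum_univ_three f
  rw [e, Fin.sum_univ_three, Nat.cast_natAbs, Nat.cast_natAbs, Nat.cast_natAbs, Int.cast_abs, Int.cast_abs, Int.cast_abs]
  show (|(a 0 : ℝ)| + |(a 1 : ℝ)| + |(a 2 : ℝ)|) / 2 = (|(a 2 : ℝ)| + |(a 0 : ℝ)| + |(a 1 : ℝ)|) / 2
  ring

open Pool.Agent.J4.H39.HM in
lemma P_eq (a : Fin 3 → ℤ) (ha : 3 / 2 ≤ sx (m := 2) ![a 2, a 0, a 1]) (v : Fin 3 → ℝ) (t : ℝ) :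
    P a v t = MT (m := 2) ![a 2, a 0, a 1] ![v 2, v 0, v 1] t := by
  unfold P MT
  refine tsum_congr fun p => ?_
  rw [s_eq]
  have e1 : Pool.Agent.Y969.GP.ht p = (p.1 : ℝ) * p.2 := rfl
  rw [e1]
  by_cases h1 : 0 < p.1
  · by_cases h2 : 0 < p.2
    · by_cases h3 : Nat.Coprime p.1 p.2
      · rw [if_pos ⟨h1, h2, h3⟩, if_pos h3]
        have e : ∀ f : Fin (2 + 1) → ℝ, ∏ i, f i = f 0 * f 1 * f 2 := fun f => Fin.prod_univ_three f
        have comm : ∀ x y z : ℝ, x * y * z = z * x * y := fun x y z => by ring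
        congr 1
        rw [e, Fin.prod_univ_three, Nat.cast_natAbs, Nat.cast_natAbs, Nat.cast_natAbs, Int.cast_abs, Int.cast_abs, Int.cast_abs,
          comm]
        rfl
      · rw [if_neg (fun h => h3 h.2.2), if_neg h3]
    · have h2' : p.2 = 0 := by omega
      rw [if_neg (fun h => h2 h.2.1), h2', Nat.cast_zero, mul_zero, Real.zero_rpow (by linarith), zero_mul, ite_self]
  · have h1' : p.1 = 0 := by omega
    rw [if_neg (fun h => h1 h.1), h1', Nat.cast_zero, zero_mul, Real.zero_rpow (by linarith), zero_mul, ite_self]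

lemma int_one (G : ℝ → ℝ) {H : ℝ} (hH : 0 ≤ H) :
    ∫ h in Icc (fun _ : Fin 1 => -H) (fun _ => H), G (h 0) = ∫ y in (-H)..H, G y := by
  have h1 := (volume_preserving_funUnique (Fin 1) ℝ).setIntegral_preimage_emb
    (MeasurableEquiv.funUnique (Fin 1) ℝ).measurableEmbedding G (Icc (-H) H)
  have e1 : (MeasurableEquiv.funUnique (Fin 1) ℝ) ⁻¹' (Icc (-H) H) = Icc (fun _ : Fin 1 => -H) (fun _ => H) := by
    ext h
    simp only [mem_preimage, mem_Icc, MeasurableEquiv.funUnique_apply, Pi.le_def, Fin.forall_fin_one]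
    rfl
  rw [e1] at h1
  rw [intervalIntegral.integral_of_le (by linarith), ← integral_Icc_eq_integral_Ioc, ← h1]
  rfl

/-- **Moments of `|ζ|²` on rational planes of `ℝ³`.** -/
theorem result (a : Fin 3 → ℤ) (ha : ∀ i, a i ≠ 0) (hk : ∃ k : Fin 3 → ℤ, ∑ i, k i * a i = 1)
    (v : Fin 3 → ℝ) (hv : ∀ i, 0 < v i) (hav : ∑ i, (a i : ℝ) * v i = 0) :
    (∀ κ : ℝ, 0 < κ → ∃ c C : ℝ, 0 < c ∧ ∀ᶠ T : ℝ in atTop, ∀ H T₁ T₂ : ℝ,
      T ^ (1 / 2 + κ) ≤ H → H ≤ T ^ (1 - κ) → T ≤ T₁ → T₁ ≤ T₂ → T₂ ≤ 2 * T →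
      |J a v T₁ T₂ H - 2 * H * ∫ t in T₁..T₂, P a v t| ≤ C * T ^ (1 - c) * H) ∧
    Tendsto (fun t : ℝ => ((P a v t / (Real.log t) ^ 3 : ℝ) : ℂ)) atTop
      (𝓝 (riemannZeta (s a) ^ 2 / riemannZeta (2 * s a))) := by
  have ha' : ∀ i : Fin 3, (![a 2, a 0, a 1] : Fin 3 → ℤ) i ≠ 0 := by
    intro i
    fin_cases i <;> simp [ha]
  have hv' : ∀ i : Fin 3, 0 < (![v 2, v 0, v 1] : Fin 3 → ℝ) i := by
    intro i
    fin_cases i <;> simp [hv]
  have hk' : ∃ k : Fin 3 → ℤ, ∑ i, k i * (![a 2, a 0, a 1] : Fin 3 → ℤ) i = 1 := by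
    obtain ⟨k, hk⟩ := hk
    refine ⟨![k 2, k 0, k 1], ?_⟩
    rw [Fin.sum_univ_three] at hk ⊢
    simp only [Matrix.cons_val_zero, Matrix.cons_val_one, Matrix.cons_val]
    linarith
  have hav' : ∑ i, ((![a 2, a 0, a 1] : Fin 3 → ℤ) i : ℝ) * (![v 2, v 0, v 1] : Fin 3 → ℝ) i = 0 := by
    rw [Fin.sum_univ_three] at hav ⊢
    simp only [Matrix.cons_val_zero, Matrix.cons_val_one, Matrix.cons_val]
    linarith
  have hs := Pool.Agent.J4.H39.HM.sx_ge (r := 0) ha'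
  constructor
  · intro κ hκ
    obtain ⟨c, C, hc, -, h⟩ := Pool.Agent.J4.H39.HM.main' (r := 0) ha' hk' hv' hav' hκ
    refine ⟨c, C, hc, ?_⟩
    filter_upwards [h, eventually_gt_atTop 0] with T h hT0 H T₁ T₂ h1 h2 h3 h4 h5
    have hH0 : 0 < H := (by positivity : 0 < T ^ (1 / 2 + κ)).trans_le h1
    have h6 := h H T₁ T₂ h1 h2 h3 h4 h5
    have e1 : (∫ t in T₁..T₂, P a v t) =
        ∫ t in Icc T₁ T₂, Pool.Agent.J4.H39.HM.MT (m := 2) ![a 2, a 0, a 1] ![v 2, v 0, v 1] t := by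
      rw [intervalIntegral.integral_of_le h4, ← integral_Icc_eq_integral_Ioc]
      refine integral_congr_ae (Eventually.of_forall fun t => ?_)
      exact P_eq a hs v t
    have e2 : J a v T₁ T₂ H = ∫ t in Icc T₁ T₂, ∫ h in Icc (fun _ : Fin (0 + 1) => -H) (fun _ => H),
        Pool.Agent.Y969.GP.ff ((![v 2, v 0, v 1] : Fin 3 → ℝ) 1 * t) *
          (∏ j : Fin (0 + 1), Pool.Agent.Y969.GP.ff ((![v 2, v 0, v 1] : Fin 3 → ℝ) j.succ.succ * t + h j)) *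
          Pool.Agent.Y969.GP.ff ((![v 2, v 0, v 1] : Fin 3 → ℝ) 0 * t -
            (∑ j : Fin (0 + 1), ((![a 2, a 0, a 1] : Fin 3 → ℤ) j.succ.succ : ℝ) * h j) / (![a 2, a 0, a 1] : Fin 3 → ℤ) 0) := by
      unfold J
      rw [intervalIntegral.integral_of_le h4, ← integral_Icc_eq_integral_Ioc]
      refine integral_congr_ae (Eventually.of_forall fun t => ?_)
      simp only
      rw [← int_one (fun h => Z (v 0 * t) * Z (v 1 * t + h) * Z (v 2 * t - a 1 * h / a 2)) hH0.le]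
      refine integral_congr_ae (Eventually.of_forall fun h => ?_)
      simp only [Nat.reduceAdd, Fin.isValue, Finset.univ_unique, Fin.default_eq_zero, Finset.prod_singleton, Finset.sum_singleton]
      rfl
    rw [e1, e2, mul_assoc C]
    simpa only [zero_add, pow_one] using h6
  · have h1 := Pool.Agent.J4.H39.HM.MT_lim (m := 2) hs hv'
    have h2 := (Complex.continuous_ofReal.tendsto _).comp h1
    rw [Pool.Agent.J4.H39.HM.cop_sum (by linarith), ← s_eq] at h2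
    refine h2.congr fun t => ?_
    simp only [Function.comp_apply]
    rw [P_eq a hs v t]

end Pool.Agent.Results.MP_39df77_nt.MomentsOnPlanes
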