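import Pool.Agent.J4.H63.SA.S7

set_option autoImplicit false

/-!
# A sampling theorem for the moments of zeta; the moment conjecture in discrete form

Let `k` be a natural number and `0 < c < 2π / k` (`c < 2π / 3` for the sixth moment, that is, a little more than three
points per zero of zeta). Let `t_n = x + n h`, `n ∈ ℤ`, be any arithmetic progression with step `h ≤ c / log T`; the
offset `x` and the step may depend on `T`. No hypothesis is assumed.

1. For every interval `[a, b] ⊆ [log T, T]` of length at least `2 log T` the sum `h ∑_{a ≤ t_n ≤ b} |ζ(1/2 + i t_n)|^(2k)`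
   lies between the integral of `|ζ(1/2 + it)|^(2k)` over `[a + log T, b - log T]` and that over `[a - log T, b + log T]`,
   up to an error `T^(-A)` with `A` arbitrary.
2. So an asymptotic formula for `M_k(T)`, of any shape `κ (log T)^p`, holds if and only if it holds for the mean over the
   points `t_n` of one such progression, and then it holds for all of them. For `k = 3`, `p = 9`, `κ = 42 a_3 / 9!` this is
   the question for the sixth moment.

Proof: `(1 - e^(-s(1-s)))^k ζ(s)^k ζ(1-s)^k` is entire and on the critical line equal to `|ζ|^(2k)` up to a factor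
`1 + O(e^(-t²))`; on the lines `Re s = 1/2 ± u` it is `O(|t|^(uk))`. Poisson summation over the progression and a shift
of the line by `u` in each Fourier coefficient give the error `T^(uk + 1 - 2πu/c)`.
-/

namespace Pool.Agent.Results.MP_39df77_nt.SamplingTheorem

open Complex MeasureTheory Filter Topology

/-- `M_k(T)` -/
noncomputable def M (k : ℕ) (T : ℝ) : ℝ :=
  1 / T * ∫ t in (0:ℝ)..T, ‖riemannZeta (1 / 2 + I * t)‖ ^ (2 * k)

/-- the sum of `|ζ(1/2 + it)|^(2k)` over the points `t = x + n h`, `n ∈ ℤ`, of the interval `[a, b]` -/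
noncomputable def discrete (k : ℕ) (x h a b : ℝ) : ℝ :=
  ∑ᶠ n ∈ {n : ℤ | a ≤ x + n * h ∧ x + n * h ≤ b}, ‖riemannZeta (1 / 2 + I * (x + n * h : ℝ))‖ ^ (2 * k)

open Pool.Agent.J4.H63.SA in
lemma discrete_eq (k : ℕ) (x : ℝ) {h : ℝ} (hh : 0 < h) (a b : ℝ) : h * discrete k x h a b = samp k x h a b := by
  unfold samp discrete
  congr 1
  have hfin : (Function.support fun n : ℤ => (Set.Icc a b).indicator (Z k) (x + n * h)).Finite := by
    refine (fin_pts x hh a b).subset fun n hn => ?_
    rw [Function.mem_support] at hn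
    by_contra hcon
    have hc : x + n * h ∉ Set.Icc a b := hcon
    exact hn (Set.indicator_of_notMem hc _)
  rw [tsum_eq_finsum hfin, finsum_mem_def]
  refine finsum_congr fun n => ?_
  by_cases hn : a ≤ x + n * h ∧ x + n * h ≤ b
  · have h1 : n ∈ {n : ℤ | a ≤ x + n * h ∧ x + n * h ≤ b} := hn
    have h2 : x + n * h ∈ Set.Icc a b := hn
    have e1 : (Set.Icc a b).indicator (Z k) (x + n * h) = Z k (x + n * h) := Set.indicator_of_mem h2 _
    rw [Set.indicator_of_mem h1, e1]
    unfold Z
    rw [mul_comm I]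
  · have h1 : n ∉ {n : ℤ | a ≤ x + n * h ∧ x + n * h ≤ b} := hn
    have h2 : x + n * h ∉ Set.Icc a b := hn
    rw [Set.indicator_of_notMem h1, Set.indicator_of_notMem h2]

open Pool.Agent.J4.H63.SA in
lemma Z_eq (k : ℕ) : Z k = fun t : ℝ => ‖riemannZeta (1 / 2 + I * t)‖ ^ (2 * k) := by
  funext t
  unfold Z
  rw [mul_comm I]

theorem result (k : ℕ) (c : ℝ) (hc : 0 < c) (hck : c * k < 2 * Real.pi) :
    -- (1) sampling over every interval, with an error smaller than every power of `T`
    (∀ A : ℝ, ∃ T₀ : ℝ, ∀ T : ℝ, T₀ ≤ T → ∀ h x a b : ℝ, 0 < h → h ≤ c / Real.log T →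
      Real.log T ≤ a → a + 2 * Real.log T ≤ b → b ≤ T →
      (∫ t in (a + Real.log T)..(b - Real.log T), ‖riemannZeta (1 / 2 + I * t)‖ ^ (2 * k)) - T ^ (-A) ≤
        h * discrete k x h a b ∧
      h * discrete k x h a b ≤
        (∫ t in (a - Real.log T)..(b + Real.log T), ‖riemannZeta (1 / 2 + I * t)‖ ^ (2 * k)) + T ^ (-A)) ∧
    -- (2) the asymptotic formula for the moment is equivalent to that for the discrete mean
    (∀ x h : ℝ → ℝ, (∀ᶠ T in atTop, 0 < h T ∧ h T ≤ c / Real.log T) → ∀ p κ : ℝ,
      Tendsto (fun T => M k T / Real.log T ^ p) atTop (𝓝 κ) ↔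
        Tendsto (fun T => h T / T * discrete k (x T) (h T) 0 T / Real.log T ^ p) atTop (𝓝 κ)) := by
  constructor
  · intro A
    obtain ⟨T₀, hT₀, H⟩ := Pool.Agent.J4.H63.SA.sandwich k hc hck (A := max A 0) (le_max_right _ _)
    refine ⟨T₀, fun T hT h x a b hh hhc ha hab hb => ?_⟩
    have hT3 : 3 ≤ T := hT₀.trans hT
    have hL : 0 < Real.log T := Real.log_pos (by linarith)
    have hhc' : h * Real.log T ≤ c := by rwa [le_div_iff₀ hL] at hhc
    have h1 := H T hT h hh hhc' a b x ha hab hb
    rw [← discrete_eq k x hh, Z_eq] at h1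
    have h2 : T ^ (-(max A 0)) ≤ T ^ (-A) :=
      Real.rpow_le_rpow_of_exponent_le (by linarith) (neg_le_neg (le_max_left _ _))
    exact ⟨by linarith [h1.1], by linarith [h1.2]⟩
  · intro x h hh p κ
    have hh' : ∀ᶠ T in atTop, 0 < h T ∧ h T * Real.log T ≤ c := by
      filter_upwards [hh, eventually_gt_atTop 1] with T h1 h2
      have hL : 0 < Real.log T := Real.log_pos h2
      refine ⟨h1.1, ?_⟩
      have := h1.2
      rwa [le_div_iff₀ hL] at this
    have h1 := Pool.Agent.J4.H63.SA.equiv k hc hck x h hh' p κ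
    have e1 : (fun T => M k T / Real.log T ^ p) =ᶠ[atTop]
        fun T => Pool.Agent.J4.H63.SA.N k T / Pool.Agent.J4.H63.SA.w p T := by
      filter_upwards [eventually_gt_atTop 0] with T hT
      unfold M Pool.Agent.J4.H63.SA.N Pool.Agent.J4.H63.SA.w
      rw [Z_eq, div_mul_eq_mul_div, one_mul, div_div]
    have e2 : (fun T => h T / T * discrete k (x T) (h T) 0 T / Real.log T ^ p) =ᶠ[atTop]
        fun T => Pool.Agent.J4.H63.SA.samp k (x T) (h T) 0 T / Pool.Agent.J4.H63.SA.w p T := by
      filter_upwards [hh] with T hT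
      unfold Pool.Agent.J4.H63.SA.w
      rw [← discrete_eq k (x T) hT.1, div_mul_eq_mul_div, div_div]
    rw [tendsto_congr' e1, tendsto_congr' e2]
    exact h1

end Pool.Agent.Results.MP_39df77_nt.SamplingTheorem
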