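import Pool.Agent.J4.H32.VS.U33
import Pool.Agent.J4.H44.LP.Ak

set_option autoImplicit false

/-!
# The sixth moment of zeta, the variance of `d_3` in short intervals, and the correlations of `d_3`
-/

namespace Pool.Agent.Results.MP_39df77_nt.ShortIntervals

open Complex MeasureTheory Filter Topology Set
open scoped ContDiff

/-- The moment `M_3(T)`. -/
noncomputable def M3 (T : ℝ) : ℝ := 1 / T * ∫ t in (0:ℝ)..T, ‖riemannZeta (1 / 2 + I * t)‖ ^ 6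

/-- The arithmetic constant `a_3`. -/
noncomputable def a3 : ℝ := ∏' p : Nat.Primes, (1 - 1 / (p : ℝ)) ^ 9 *
  ∑' m : ℕ, ((m + 2).choose m : ℝ) ^ 2 / (p : ℝ) ^ m

/-- The number `d_3(n)` of ordered factorisations of `n` into `3` positive factors. -/
def d3 (n : ℕ) : ℕ := (Nat.finMulAntidiag 3 n).card

/-- The residue of `ζ(s)^3 x^s / s` at `s = 1`. -/
noncomputable def R (x : ℝ) : ℂ :=
  (2 * Real.pi * I)⁻¹ * ∮ s in C(1, 1 / 4), riemannZeta s ^ 3 * ((x : ℂ) ^ s / s)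

/-- The error term `Δ_3(x)` of the divisor problem: the sum of `d_3(n)` over `1 ≤ n ≤ x`, minus the residue. -/
noncomputable def Δ (x : ℝ) : ℂ := (∑ n ∈ Finset.Icc 1 ⌊x⌋₊, (d3 n : ℂ)) - R x

/-- The cut-offs: continuous, `f(v) + f(3 - v) = 1` for all `v`, `f(v) = 0` for `v ≥ 3`, `f ≥ 0`, and `f(v) > 0`
for `v ≤ 3/2`. -/
structure CutOff (f : ℝ → ℝ) : Prop where
  cont : Continuous f
  sym : ∀ v : ℝ, f v + f (3 - v) = 1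
  out : ∀ v : ℝ, 3 ≤ v → f v = 0
  nonneg : ∀ v : ℝ, 0 ≤ f v
  pos : ∀ v : ℝ, v ≤ 3 / 2 → 0 < f v

/-- The mean square `(h (log 1/h)^9)⁻¹ ∫_{x > h^{-θ}} f(log x / log(1/h)) |Δ_3(x + hx) - Δ_3(x)|² dx / x²`. -/
noncomputable def D (θ : ℝ) (f : ℝ → ℝ) (h : ℝ) : ℝ :=
  (h * Real.log (1 / h) ^ 9)⁻¹ *
    ∫ x in Ioi (h ^ (-θ)), f (Real.log x / Real.log (1 / h)) * (‖Δ (x + h * x) - Δ x‖ ^ 2 / x ^ 2)

/-- The weights: smooth, `w(v) = 0` for `v ≤ 0` and for `v ≥ 3 - θ`, `w(v) + w(3 - v) = 1` for `θ ≤ v ≤ 3/2`,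
`w(v) ≥ 0` for `v ≥ θ`, and `w(v) > 0` for `θ ≤ v ≤ 3/2`. -/
structure Weight (θ : ℝ) (w : ℝ → ℝ) : Prop where
  smooth : ContDiff ℝ ∞ w
  left : ∀ v : ℝ, v ≤ 0 → w v = 0
  right : ∀ v : ℝ, 3 - θ ≤ v → w v = 0
  sym : ∀ v : ℝ, θ ≤ v → v ≤ 3 / 2 → w v + w (3 - v) = 1
  nonneg : ∀ v : ℝ, θ ≤ v → 0 ≤ w v
  pos : ∀ v : ℝ, θ ≤ v → v ≤ 3 / 2 → 0 < w v

/-- The sum of `d_3(m) d_3(n)` over `x < m < n ≤ x + hx`. -/
noncomputable def pairs (h x : ℝ) : ℝ := ∑ m ∈ Finset.Ioc ⌊x⌋₊ ⌊x + h * x⌋₊, ∑ n ∈ Finset.Ioc m ⌊x + h * x⌋₊, (d3 m : ℝ) * d3 n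

/-- The mean `(h (log 1/h)^9)⁻¹ ∫_{x > 1} w(log x / log(1/h)) (2 ∑_{x < m < n ≤ x + hx} d_3(m) d_3(n) -
|R(x + hx) - R(x)|²) dx / x²` of the correlations of `d_3`. -/
noncomputable def Cor (w : ℝ → ℝ) (h : ℝ) : ℝ :=
  (h * Real.log (1 / h) ^ 9)⁻¹ * ∫ x in Ioi (1:ℝ), w (Real.log x / Real.log (1 / h)) *
    ((2 * pairs h x - ‖R (x + h * x) - R x‖ ^ 2) / x ^ 2)

/-- The conjecture Q1. -/
def Q1 : Prop := Tendsto (fun T : ℝ => M3 T / (42 * a3 / Nat.factorial 9 * Real.log T ^ 9)) atTop (𝓝 1)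

open Pool.Agent.TH535.SM Pool.Agent.R446.KR Pool.Agent.J4.H44.LP Pool.Agent.J4.H32.VS in
lemma M3_eq (T : ℝ) : M3 T = M (zk 3) T / T := by
  unfold M3 M
  have e : ∫ t in (0:ℝ)..T, ‖riemannZeta (1 / 2 + I * t)‖ ^ 6 = ∫ t in (0:ℝ)..T, ‖zk 3 t‖ ^ 2 := by
    refine intervalIntegral.integral_congr fun t _ => ?_
    unfold zk ze
    rw [norm_pow, ← pow_mul, mul_comm I]
  rw [e, one_div_mul_eq_div]

open Pool.Agent.TH535.SM Pool.Agent.R446.KR Pool.Agent.J4.H44.LP Pool.Agent.J4.H32.VS in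
lemma rat (T : ℝ) : M3 T / Real.log T ^ 9 = M (zk 3) T / NN (3 ^ 2) T := by
  rw [M3_eq, div_div]; rfl

lemma a3_eq : a3 = Pool.Agent.H306R2.aF ((3:ℕ):ℝ) := Pool.Agent.J4.H44.LP.aF_choose 3 (by omega)

lemma a3_pos : 0 < a3 := by rw [a3_eq]; exact Pool.Agent.H306R2.aF_pos (by norm_num)

lemma CutOff.hc {f : ℝ → ℝ} (h : CutOff f) : Pool.Agent.J4.H32.VS.HC 3 f := by
  have e : ((3:ℕ):ℝ) = 3 := by norm_num
  refine ⟨h.cont, fun v => ?_, fun v hv => ?_, h.nonneg, fun v hv => ?_⟩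
  · rw [e]; exact h.sym v
  · rw [e] at hv; exact h.out v hv
  · rw [e] at hv; exact h.pos v (by linarith)

lemma of_hc {f : ℝ → ℝ} (h : Pool.Agent.J4.H32.VS.HC 3 f) : CutOff f := by
  have e : ((3:ℕ):ℝ) = 3 := by norm_num
  refine ⟨h.cont, fun v => ?_, fun v hv => ?_, h.nn, fun v hv => ?_⟩
  · have := h.sym v
    rwa [e] at this
  · exact h.out v (by rw [e]; exact hv)
  · exact h.pos v (by rw [e]; linarith)

lemma D_eq (θ : ℝ) (f : ℝ → ℝ) : D θ f = Pool.Agent.J4.H32.VS.Var2 3 θ f := rfl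

lemma Cor_eq (w : ℝ → ℝ) : Cor w = Pool.Agent.J4.H32.VS.Cv 3 w := rfl

lemma Weight.sw {θ : ℝ} {w : ℝ → ℝ} (h : Weight θ w) : Pool.Agent.J4.H32.VS.SW 3 θ (((3:ℕ):ℝ) - θ) w := by
  have e : ((3:ℕ):ℝ) = 3 := by norm_num
  refine ⟨h.smooth, h.left, fun v hv => ?_, fun v h1 h2 => ?_, h.nonneg, fun v h1 h2 => ?_⟩
  · rw [e] at hv; exact h.right v hv
  · rw [e] at h2 ⊢; exact h.sym v h1 (by linarith)
  · rw [e] at h2; exact h.pos v h1 (by linarith)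

lemma ex_weight {θ ε : ℝ} (hθ : 0 < θ) (hθ1 : θ < 1) (hε : 0 < ε) :
    ∃ w : ℝ → ℝ, Weight θ w ∧ ∀ v : ℝ, v ≤ θ - ε ∨ 3 / 2 + ε ≤ v → w v = 0 := by
  have e : ((3:ℕ):ℝ) = 3 := by norm_num
  obtain ⟨δ, hδ⟩ : ∃ δ : ℝ, δ = min ε (3 / 2 - θ) := ⟨_, rfl⟩
  have h1 : (0:ℝ) < 3 / 2 - θ := by linarith
  have hδ0 : 0 < δ := by rw [hδ]; exact lt_min hε h1
  have hδ1 : δ ≤ ε := by rw [hδ]; exact min_le_left _ _
  have hδ2 : δ ≤ 3 / 2 - θ := by rw [hδ]; exact min_le_right _ _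
  obtain ⟨w, h2, -, h4⟩ := Pool.Agent.J4.H32.VS.exists_SW (k := 3) (by norm_num) hθ hθ1 hδ0
  have hr := h2.right
  have hs := h2.sym
  have hp := h2.pos
  rw [e] at hr hs hp
  refine ⟨w, ⟨h2.smooth, h2.left, fun v hv => hr v (by linarith), fun v h5 h6 => hs v h5 (by linarith), h2.nn,
    fun v h5 h6 => hp v h5 (by linarith)⟩, fun v hv => ?_⟩
  rcases hv with hv | hv
  · exact h4 v (by linarith)
  · exact hr v (by linarith)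

lemma Q1_iff : Q1 ↔ Tendsto (fun T => M3 T / Real.log T ^ 9) atTop (𝓝 (42 * a3 / Nat.factorial 9)) := by
  have hκ : 0 < 42 * a3 / Nat.factorial 9 := by have := a3_pos; positivity
  unfold Q1
  obtain ⟨κ, hκd⟩ : ∃ κ, κ = 42 * a3 / Nat.factorial 9 := ⟨_, rfl⟩
  rw [← hκd] at hκ ⊢
  have e4 : (fun T : ℝ => M3 T / (κ * Real.log T ^ 9)) =
      fun T : ℝ => (M3 T / Real.log T ^ 9) * κ⁻¹ := by
    funext T
    rw [mul_comm κ, ← div_div, div_eq_mul_inv]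
  rw [e4]
  constructor
  · intro hf
    have := hf.mul_const κ
    simpa [mul_assoc, inv_mul_cancel₀ hκ.ne'] using this
  · intro hf
    have := hf.mul_const κ⁻¹
    rwa [mul_inv_cancel₀ hκ.ne'] at this

/-- The sixth moment, the variance of `d_3` in the intervals `(x, x + hx]`, and the correlations of `d_3`. -/
theorem result :
    -- cut-offs exist, with `f = 0` on `[3/2 + ε, ∞)`
    (∀ ε : ℝ, 0 < ε → ∃ f : ℝ → ℝ, CutOff f ∧ ∀ v, 3 / 2 + ε ≤ v → f v = 0) ∧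
    -- weights exist, with `w = 0` outside `(θ - ε, 3/2 + ε)`
    (∀ θ ε : ℝ, 0 < θ → θ < 1 → 0 < ε → ∃ w : ℝ → ℝ, Weight θ w ∧ ∀ v, v ≤ θ - ε ∨ 3 / 2 + ε ≤ v → w v = 0) ∧
    ∀ θ : ℝ, 0 ≤ θ → θ < 1 →
      -- the variance
      (∀ f : ℝ → ℝ, CutOff f → (∀ v, 3 - θ ≤ v → f v = 0) →
        (∀ c : ℝ, Tendsto (fun T => M3 T / Real.log T ^ 9) atTop (𝓝 c) ↔
          Tendsto (D θ f) (𝓝[>] 0) (𝓝 (c / 2 - a3 * (θ ^ 9 / Nat.factorial 9)))) ∧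
        (Q1 ↔ Tendsto (D θ f) (𝓝[>] 0) (𝓝 (a3 * (21 - θ ^ 9) / Nat.factorial 9)))) ∧
      -- the correlations
      (∀ w : ℝ → ℝ, Weight θ w →
        (∀ c : ℝ, Tendsto (fun T => M3 T / Real.log T ^ 9) atTop (𝓝 c) ↔
          Tendsto (Cor w) (𝓝[>] 0) (𝓝 (c / 2 - a3 * (θ ^ 9 / Nat.factorial 9 +
            ∫ v in θ..(3 - θ), w v * (v ^ 8 / Nat.factorial 8))))) ∧
        (Q1 ↔ Tendsto (Cor w) (𝓝[>] 0) (𝓝 (a3 * ((21 - θ ^ 9) / Nat.factorial 9 -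
            ∫ v in θ..(3 - θ), w v * (v ^ 8 / Nat.factorial 8)))))) := by
  have e0 : ((3:ℕ):ℝ) = 3 := by norm_num
  refine ⟨fun ε hε => ?_, fun θ ε h0 h1 h2 => ex_weight h0 h1 h2, fun θ h0 h1 => ⟨fun f hf hf0 => ?_, fun w hw => ?_⟩⟩
  · obtain ⟨f, h1, h2⟩ := Pool.Agent.J4.H32.VS.exists_HC (k := 3) (by norm_num) hε
    rw [e0] at h2
    exact ⟨f, of_hc h1, fun v hv => h2 v (by linarith)⟩
  · have hf1 : ∀ v : ℝ, ((3:ℕ):ℝ) - θ ≤ v → f v = 0 := by rw [e0]; exact hf0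
    have key : ∀ c : ℝ, Tendsto (fun T => M3 T / Real.log T ^ 9) atTop (𝓝 c) ↔
          Tendsto (D θ f) (𝓝[>] 0) (𝓝 (c / 2 - a3 * (θ ^ 9 / Nat.factorial 9))) := by
      intro c
      simp only [rat]
      rw [Pool.Agent.J4.H32.VS.main2_iff (by norm_num) h0 h1 hf.hc hf1, D_eq, Pool.Agent.J4.H32.VS.lim2_iff, a3_eq]
      exact Iff.rfl
    refine ⟨key, ?_⟩
    rw [Q1_iff, key]
    have e5 : 42 * a3 / (Nat.factorial 9 : ℝ) / 2 - a3 * (θ ^ 9 / Nat.factorial 9) =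
        a3 * (21 - θ ^ 9) / Nat.factorial 9 := by ring
    rw [e5]
  · have key : ∀ c : ℝ, Tendsto (fun T => M3 T / Real.log T ^ 9) atTop (𝓝 c) ↔
          Tendsto (Cor w) (𝓝[>] 0) (𝓝 (c / 2 - a3 * (θ ^ 9 / Nat.factorial 9 +
            ∫ v in θ..(3 - θ), w v * (v ^ 8 / Nat.factorial 8)))) := by
      intro c
      simp only [rat]
      rw [Pool.Agent.J4.H32.VS.co_iff2 (by norm_num) h0 h1 hw.sw, Cor_eq,
        Pool.Agent.J4.H32.VS.limC_iff 3 hw.left, a3_eq]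
      exact Iff.rfl
    refine ⟨key, ?_⟩
    rw [Q1_iff, key]
    obtain ⟨J, hJ⟩ : ∃ J : ℝ, J = ∫ v in θ..(3 - θ), w v * (v ^ 8 / (Nat.factorial 8 : ℝ)) := ⟨_, rfl⟩
    rw [← hJ]
    have e5 : 42 * a3 / (Nat.factorial 9 : ℝ) / 2 - a3 * (θ ^ 9 / Nat.factorial 9 + J) =
        a3 * ((21 - θ ^ 9) / Nat.factorial 9 - J) := by ring
    rw [e5]

end Pool.Agent.Results.MP_39df77_nt.ShortIntervals
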